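import Pool.Agent.Q49.CO.Main2

set_option autoImplicit false

/-! # The strong motivic monodromy conjecture for `∑ y_j f_j(x)` at all points, the `f_j` being forms
of one degree which define a smooth projective scheme

Let `f_j` be forms of the same degree `d > 0` in `x₀, …, xₙ`, of which `n + 1` are algebraically
independent, and suppose that the scheme `Y ⊆ ℙ ^ n` which they define is smooth (it may have several
components, of different dimensions, and the ideal `(f_j)` may be far from saturated). Then the
hypersurface `F = ∑ y_j f_j(x)` in the variables `y_j` and `x_i` satisfies the strong motivic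
monodromy conjecture at all points: the motivic zeta function of `F` at a point, defined with the
`m`-jets `ψ` at the point with `F(ψ) = t ^ m mod t ^ (m + 1)`, lies in the ring generated over `𝓜` by
`T` and the `1 / (1 - 𝕃 ^ a T ^ b)`, where `(a, b)` is `(-1, 1)`, `(-(n + 1), d)` or `(-c, 1)`, `c` the
codimension of a component of `Y`; and all these `a / b` are roots of the Bernstein-Sato polynomial of
`F`, and even of its local Bernstein-Sato polynomial at the origin.

For example, the `f_j` may be the products `x_i h_j`, where the `h_j` are forms of the same degree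
which generate the ideal sheaf of a smooth projective variety: then the determinant condition holds
(see `MP_4e5fcd_ag.ConesSmoothOutsidePoints`). The hypersurface `F = 0` has non isolated singularities
at all points `(y, 0)`, and at the points `(0, x)`, `x ∈ Y`.

The proof. Let `(y₀, x₀)` be a point and let `g = ∑ y₀_j f_j`. For an arc `x(t)` on which the ideal
`(f_j)` has the order `k`, and an arc `y(t)` with origin `y₀`, the coefficient of `t ^ k` of
`F(x(t), y(t))` is that of `g(x(t))`, and if it is zero then `F(x(t), y(t)) = t ^ m + ⋯` means `m - k`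
independent linear conditions on `y(t)`. So the zeta function is computed from the classes of the
sets of the jets `x(t)` with `ord (f_j) ≥ k` and given coefficient of order `k` of `g`. For the
origin `x₀ = 0` these are computed from the origins `≠ 0` by scaling; on the other strata, at a
smooth point, the coefficient of `g` is equidistributed or zero, depending on whether the
differential of `g` is zero. Roots: the pairs `(-(n + 1), d)` and `(-c, 1)` belong to Rees divisors
of the ideal `(f_j)`. -/

namespace Pool.Agent.Results.MP_b91a16_ag.FormsOverSmoothCones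

open MvPolynomial Pool.Agent.Q49.CO
open Pool.Agent.W428.MOT (ratRing)
open Pool.Agent.TH192.MT (zetaX)
open Pool.Agent.W574.HS (univ)
open Pool.Agent.H628R4.TP (IsBFunction IsLocalBFunction)

/-- **The strong motivic monodromy conjecture at all points of `F = ∑ y_j f_j(x)`.** Let `f_j` be
forms of degree `d > 0` in `x₀, …, xₙ`, such that the Jacobian determinant of some `n + 1` of them is
not zero, and suppose that at every point `p ≠ 0` with `f_j(p) = 0` for all `j`, the scheme defined by
the `f_j` is smooth (`SmoothAt f c p`: near `p` it is defined by `c` of the `f_j`, which have a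
Jacobian minor of size `c` not zero at `p`). Let `C` be the set of the codimensions `c` at these
points, and `S = hypPairs (conePairs d C ∅ _)` the set of the pairs `(-1, 1)`, `(-(n + 1), d)` and
`(-c, 1)`, `c ∈ C`. Then `a < 0 < b` and `a / b` is a root of the Bernstein-Sato polynomial of
`F = univ f`, and of the local one at the origin, for `(a, b) ∈ S`, and for every point `x` the
motivic zeta function `zetaX F x` lies in the subring of `𝓜⟦T⟧` generated over `𝓜` by `T` and the
`1 / (1 - 𝕃 ^ a T ^ b)`, `(a, b) ∈ S`. -/
theorem result {n : ℕ} {J : Type} [Fintype J] (f : J → MvPolynomial (Fin (n + 1)) ℂ) (d : ℕ)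
    (hd : 0 < d) (hf : ∀ j, (f j).IsHomogeneous d)
    (hg : ∃ e : Fin (n + 1) → J, (Matrix.of fun s t => pderiv s (f (e t))).det ≠ 0)
    (h : ∀ p : Fin (n + 1) → ℂ, p ≠ 0 → (∀ j, eval p (f j) = 0) → ∃ c, SmoothAt f c p)
    (C : Finset ℕ) (hC : ∀ c, c ∈ C ↔ ∃ p, p ≠ 0 ∧ SmoothAt f c p) :
    (∀ q ∈ hypPairs (conePairs (n := n) d C ∅ fun _ => ∅), q.1 < 0 ∧ 0 < q.2 ∧
      (∀ b, IsBFunction (univ f) b → b.eval ((q.1 : ℂ) / q.2) = 0) ∧
      ∀ b, IsLocalBFunction (univ f) b → b.eval ((q.1 : ℂ) / q.2) = 0) ∧
    ∀ x : J ⊕ Fin (n + 1) → ℂ, zetaX (univ f) x ∈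
      ratRing ℂ (hypPairs (conePairs (n := n) d C ∅ fun _ => ∅) : Set (ℤ × ℤ)) :=
  hyp_all f d hd hf hg h C hC

end Pool.Agent.Results.MP_b91a16_ag.FormsOverSmoothCones
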