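import Pool.Agent.Q223.TW.PtRed

/-!
# The motivic monodromy conjecture at points: poles, and reduction to trilinear polynomials

**Poles.** For a power series `Z` with coefficients in `𝓜_K` (which may have zero divisors) we show: if `Z`
is in `𝓜_K[T, 1 / (1 - 𝕃 ^ a T ^ b)]` for the pairs of a set `S₁`, and for the pairs of a set `S₂`, then
it is in this ring for the pairs of `S₁` whose slope `a / b` is also a slope of `S₂`, together with one
pair `(-D, D)`. (In a prime ideal of `𝓜_K[T]` which contains `1 - 𝕃 ^ a T ^ b` and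
`1 - 𝕃 ^ a' T ^ b'` with `a / b ≠ a' / b'`, `𝕃` and `T` are roots of unity.) As `-1` is a root of
`b_f`, Q1 says that all the poles of `Z_{f,x}(T)` are roots of `b_f`, where `s` is called a pole if
`Z_{f,x}(T)` is not in the ring generated by `T` and all the `1 / (1 - 𝕃 ^ a T ^ b)` with `a / b ≠ s`.

**Programs.** A *program* over `k` consists of a forest on the nodes `0, …, κ - 1` (`o m` is the parent of
the node `m`, and comes before `m`; `o m = none` for the roots), of a label `v m ∈ {1, …, n}` for every
node, of a coefficient `c m` for every node and of a constant `a`. Its polynomial is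

`F = a + ∑_m c_m z_m + ∑_m y_m (z_m - z_(o m) x_(v m))`  (with `z_none = 1`),

which is linear in each of the three groups of variables `x`, `y`, `z`. Horner's scheme of `f` along a
forest gives an automorphism of the polynomial ring over `k` which takes `f(x) + ∑ y_m z_m` to `F`. Such
schemes exist for all large `κ`. At a point with `y = z = 0` the local motivic zeta functions of `f` with
`j` planes `y z` added, with `T ↦ 𝕃^j T` and the factor `1 - 𝕃⁻¹ T`, satisfy a linear recursion with
constant coefficients and the characteristic roots `𝕃`, `𝕃 ^ 2`. The addition of a plane shifts the roots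
of `b_f(s) / (s + 1)` by `-1`; the integral slopes which come from the root `-1` of the `b`-functions of
the programs are removed with the result on poles.
-/

set_option autoImplicit false

namespace Pool.Agent.Results.MP_b91a16_ag.TrilinearReductionPoints

open MvPolynomial Pool.Agent.Q223.MM Pool.Agent.Q223.TW
open Pool.Agent.H628R4.TP (IsBFunction)
open Pool.Agent.W428.MOT (zeta ratRing)
open Pool.Agent.W375.MG (IsPole)

/-- **Q1 at the points of the affine spaces over a field `k ⊂ ℂ` is equivalent to its case of the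
trilinear polynomials of programs over `k` with minimal exponent larger than `N`.**

`zeta f x = ∑_{m ≥ 1} [X_{m,1,x}] 𝕃 ^ (-n m) T ^ m` is the local motivic zeta function of the problem and
`ratRing K S = 𝓜_K[T, 1 / (1 - 𝕃 ^ a T ^ d)]_{(a, d) ∈ S}`. `StrongPt f K x`, for `f ∈ k[x_1, …, x_n]`
and a point `x` with coordinates in a field `K` which contains `k`: for every `b ≠ 0` with
`b(s) f ^ s = P(s) f ^ (s + 1)` over `ℂ` (for instance `b = b_f`) there is a finite set `S` of pairs
`(a, d) ∈ ℤ × ℤ_{>0}` with `zeta f x ∈ ratRing K S` and `b(a / d) = 0` for all `(a, d) ∈ S`. For `b = b_f`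
this is Q1 (the roots of `b_f` are negative by Kashiwara's theorem, so `a < 0`).
`MinExp N F`: there is `c ≠ 0` such that `(s + 1) c(s)` satisfies such a functional equation for `F`, and
the roots of `c` have real part `< -N`; so the minimal exponent of `F` is larger than `N`.
`Forest o`: `o m = some m'` implies `m' < m`. `progA o v c a` is the polynomial
`a + ∑ c_m z_m + ∑ y_m (z_m - z_(o m) x_(v m))`, `z_none = 1`. `t ∈ coeffs S`: `t = 0` or `t ∈ S` or
`-t ∈ S`.

First part: for every `f` and `N` there are programs with `κ`, `κ + 1`, `κ + 2`, … nodes, whose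
polynomials `F_j` have minimal exponent larger than `N`, and for every point `x` of `f = 0` there are
points `p_j` of `F_j = 0` over the same field, such that Q1 for `(F_j, p_j)`, `j < 4`, implies Q1 for
`(f, x)`.
Second part: the equivalence.
Third part: Q1 for `(f, x)` says that `Z_{f,x}(T)` is rational and that all its poles are roots of `b`.
`IsPole Z s`: `Z` is not in the ring generated by `T` and the `1 / (1 - 𝕃 ^ a T ^ d)`, `d > 0`,
`a / d ≠ s`. -/
theorem result (k : Type) [Field k] [Algebra k ℂ] (S : Set k)
    (hS : (1 : k) ∈ AddSubgroup.closure S) (N : ℕ) :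
    (∀ (n : ℕ) (f : MvPolynomial (Fin n) k), f.totalDegree ≠ 0 →
      (∀ d, coeff d f ∈ AddSubgroup.closure S) →
      ∃ (κ : ℕ) (a : k), 0 < κ ∧ a ∈ AddSubgroup.closure S ∧
        ∃ (o : ∀ j : ℕ, Fin (κ + j) → Option (Fin (κ + j)))
        (v : ∀ j : ℕ, Fin (κ + j) → Fin n) (c : ∀ j : ℕ, Fin (κ + j) → k),
        (∀ j, Forest (o j) ∧ (∀ m, c j m ∈ coeffs S) ∧
          MinExp N (map (algebraMap k ℂ) (progA (o j) (v j) (c j) a))) ∧
        ∀ (K : Type) [Field K] [Algebra k K] (x : Fin n → K), aeval x f = 0 →
          ∃ p : ∀ j : ℕ, Fin (n + (κ + j + (κ + j))) → K,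
            (∀ j, aeval (p j) (progA (o j) (v j) (c j) a) = 0) ∧
            ((∀ j < 4, StrongPt (progA (o j) (v j) (c j) a) K (p j)) → StrongPt f K x)) ∧
    ((∀ (n : ℕ) (f : MvPolynomial (Fin n) k), f.totalDegree ≠ 0 →
        (∀ d, coeff d f ∈ AddSubgroup.closure S) →
        ∀ (K : Type) [Field K] [Algebra k K] (x : Fin n → K), aeval x f = 0 → StrongPt f K x) ↔
      ∀ (n κ : ℕ) (o : Fin κ → Option (Fin κ)) (v : Fin κ → Fin n) (c : Fin κ → k) (a : k),
        0 < κ → Forest o → (∀ m, c m ∈ coeffs S) → a ∈ AddSubgroup.closure S →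
        MinExp N (map (algebraMap k ℂ) (progA o v c a)) →
        ∀ (K : Type) [Field K] [Algebra k K] (p : Fin (n + (κ + κ)) → K),
          aeval p (progA o v c a) = 0 → StrongPt (progA o v c a) K p) ∧
    (∀ (n : ℕ) (f : MvPolynomial (Fin n) k), f.totalDegree ≠ 0 →
      ∀ (K : Type) [Field K] [Algebra k K] (x : Fin n → K),
      StrongPt f K x ↔ ∀ b : Polynomial ℂ, b ≠ 0 → IsBFunction (map (algebraMap k ℂ) f) b →
        (∃ S : Finset (ℤ × ℤ), (∀ p ∈ S, 0 < p.2) ∧
          zeta (map (algebraMap k K) f) x ∈ ratRing K S) ∧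
        ∀ s : ℚ, IsPole (zeta (map (algebraMap k K) f) x) s → b.eval (s : ℂ) = 0) := by
  refine ⟨fun n f hf hfS => reducePt S hS N n f hf hfS, ⟨?_, ?_⟩,
    fun n f hf K _ _ x => strong_iff_poles hf K x⟩
  · intro h n κ o v c a hκ _ hc ha _ K _ _ p hp
    exact h _ (progA o v c a) (progA_deg o v c a hκ) (fun d => progA_coeff hS o v c hc ha d) K p hp
  · intro h n f hf hfS K _ _ x hx
    obtain ⟨κ, a, hκ, ha, o, v, c, h1, h2⟩ := reducePt S hS N n f hf hfS
    obtain ⟨p, hp, h3⟩ := h2 K x hx
    exact h3 fun j _ => h n (κ + j) (o j) (v j) (c j) a (by omega) (h1 j).1 (h1 j).2.1 ha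
      (h1 j).2.2 K (p j) (hp j)

end Pool.Agent.Results.MP_b91a16_ag.TrilinearReductionPoints
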